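import Pool.Agent.H882.FzSig

/-!
# MP_7e5527_ag: subvarieties of `Y(1)^n`, of any dimension `m < n`, which degenerate at a *given* algebraic
point have no point of `Σ(M, X_M, x)`

`Γ\X⁺ = Y(1)^n` (`G = GL_2^n`, `X⁺ = ℍ^n`, `Γ = SL_2(ℤ)^n`) is identified with `ℂ^n` by the elliptic
modular function `jj = j = E₄³ / Δ`.

**The sets `Σ`.** Let `(M, X_M)` be any Shimura datum, `x ∈ X_M` Hodge generic and `z_1, …, z_k` the
components of `x^ad` at the `ℚ`-simple factors of `M^ad` which are isomorphic to `PGL_2` (moved to the
upper half plane). The adjoint Mumford-Tate group of a point `x'` of `ℍ^n` is `PGL_2^r`, where `r` is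
the number of isogeny classes of its coordinates without complex multiplication. A homomorphism
`φ : M^ad → M^ad_{x'}` with `φ(x^ad) = x'^ad` is surjective, so it is given by `r` of the
factors of `M^ad`. Hence the image of `Σ(M, X_M, x)` in `ℂ^n` consists of points of the set `Sigma n u`,
`u = (j (z_1), …, j (z_k))`: each coordinate is a singular modulus or the `j`-invariant of an
elliptic curve which is isogenous to one with the invariant `u_l` for some `l`. (It is equal to
`Sigma n u`, since the `z_l` have no complex multiplication and are pairwise not isogenous.)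

**The families.** Let `X_(t,λ) ⊂ ℂ^n` be a family of sets of dimension `m` over a field `F ⊂ ℂ`, with
parameters `t ∈ ℕ`, `λ ∈ ℂ^q` (`Family`, `Family.member`), which degenerates for `t = 0` to the union of the
`m`-dimensional coordinate subspaces: for every set `J` of `m + 1` coordinates there is an equation

  `lead_J ∏_(i ∈ J) x_i ^ e_(J,i) + t rest_J (λ, x) = 0`,  `0 ≠ lead_J ∈ F`,

with a polynomial `rest_J` over `F` of degree at most `e_(J,i)` in `x_i`. For example this is true for the
homothetic images `t λ V` (`λ` a number) of an arbitrary subvariety `V` of dimension `m` in general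
position at infinity, that is, such that for each `J` there is an equation of `V` in the `x_i`, `i ∈ J`,
which contains the monomial of maximal exponents (all `V` have this property after a general projective
linear transformation in each coordinate; here `F` is a field of definition of `V`, for example `F = ℂ`),
and for the hypersurfaces `x_1^a_1 ⋯ x_n^a_n = t g (λ, x)`.

**Theorem** (`result`). (I) Every residue class `c₀ mod N` of `ℤ^(n+k)` contains a residue class `c' mod M`,
all elements `c` of which have coordinates `c_i ≠ 0, 1728` and satisfy the Galois condition `Separated`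
below.

(II) Let `(s, u)` be a point of `Y(1)^n × Y(1)^k` with algebraic coordinates `≠ 0, 1728` which satisfies
`Separated`. There are `n + k + 1` sets `P_0, …, P_(n+k)` of prime numbers, such that the sum of the
reciprocals of the elements of each `P_a` is divergent, and a set `N ⊂ ℕ` of density zero with the
following properties. Let `F` be *any* subfield of `ℂ`, and `X` *any* family over `F` as above, of any
dimension `m` and with any number `q` of parameters.
(A) There is a number `B` such that for all `t` which are divisible by an element `p_a > B` of `P_a` for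
each `a`, and for all algebraic integers `λ_i`: for each point `x` of the translate `s + X_(t,λ)` at
most `m` of the coordinates `x_1, …, x_n` are singular moduli or isogenous to one of `u_1, …, u_k`
(`Few`). In particular, if `m < n`, then `s + X_(t,λ)` has no point of `Sigma n u`.
(B) There is a number `T` such that the same is true for all `t ≥ T`, `t ∉ N`.

So let `s` be a given point of `Y(1)^n` and `x` a Hodge generic point of a Shimura datum `(M, X_M)` such that
the components `z_1, …, z_k` of `x^ad` have algebraic invariants `u_l = j (z_l)`. If `(s, u)` satisfies the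
condition, then the answer to Q1 is positive for `(M, X_M, x)` and *all* `V ⊂ s + X_(t,λ)`, `t` as in (A) or
(B), `m < n`, with the empty union.

**The condition.** The elements of `neighbours ℓ s_k` are the `j`-invariants of the quotients `E_k / C`,
where `E_k` is an elliptic curve over the number field `K = ℚ (s_1, …, s_n)` with `j (E_k) = s_k` and `C` runs
through the `ℓ + 1` subgroups of order `ℓ`. `Separated s`, for a point `s` of `Y(1)^n`, says that there are
primes `ℓ_(a,i) ≡ 1 mod 4` (`a = 0, …, n`, `i = 1, …, n`) with `ℓ_(a,i) + 1` different neighbours of each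
`s_k`, and automorphisms `σ_a` of `ℂ` which fix the `s_k` and the roots of unity of order `ℓ_(a,i)`, such
that `σ_b` fixes no `ℓ_(a,i)`-neighbour of `s_k` if `(b,k) = (a,i)`, and exactly two of them otherwise. We use
it for the point `(s, u)` of `Y(1)^(n+k)`. By (I) the theorem is true without any hypothesis for a set of
integral points `(s, u)` of positive density, which contains an open dense subset of `ℤ^(n+k)` for the
congruence topology. *Moreover all Hodge generic points with algebraic coordinates satisfy the
condition by Serre's open image theorem* (this is not proved here, and it is only used for this remark):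
if the curves are without complex multiplication and pairwise not isogenous over the algebraic
closure, the image of the absolute Galois group of the field generated by `K` and all roots of unity in
`∏_ℓ ∏_k SL_2 (𝔽_ℓ)` is everything for each finite set of sufficiently large primes `ℓ` (Serre, Propriétés
galoisiennes des points d'ordre fini des courbes elliptiques, for two curves together with Faltings'
isogeny theorem; for several curves and primes by the lemmas of Goursat and Ribet). The components `u_l`
are always Hodge generic; so the theorem holds for all Hodge generic points `s` with algebraic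
coordinates such that no `s_i` is isogenous to a `u_l`. This is natural, since the families degenerate to
the unions of the `m`-dimensional coordinate subspaces through the point `s`.

**Relation to earlier results.** Our result `MP_7e5527_ag.IntegralCentresAvoidSigma` is about almost all
pairs `(s, t)` in `ℤ^n × ℕ` and the images `s + t λ Y`: it says nothing about a given centre `s`, nothing about
centres whose coordinates are not integral and not rational numbers, and it is only about families of this
form. The results `ImagesAvoidSigma`, `TranslatesAvoidSigma`, `FamiliesOverTheLine`, `OneDegenerateValue`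
are about subvarieties all of whose points have coordinates with bad reduction at several places. Our
result `MP_d83ecd_ag.FixedCentres` is the analogue for special subvarieties of `Y(1)^n`; the points of
`Sigma n u` are in general in no special subvariety of `Y(1)^n` except `Y(1)^n`. Here we apply the theorem
on points near to a given centre (`fz_master`), from which both results follow, in `Y(1)^(n+k)` to the
points `(x, u)`, `x ∈ s + X_(t,λ)`. They are in special subvarieties of dimension `k + n - |I|` if the
coordinates `x_i`, `i ∈ I`, are singular moduli or isogenous to elements of `u_1, …, u_k` (`exists_datum`).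

**Idea of the proof.** By Chebotarev's theorem for the Galois closure of the field generated by the
neighbours, for each `b` the sum of the reciprocals of the primes `p` for which `σ_b` is the Frobenius of a
suitable prime `𝔭` above `p` is divergent. By Kronecker's congruence the condition on `σ_b` determines
the quadratic characters modulo the `ℓ_(a,i)` of the discriminants of the Frobenius endomorphisms of
the reductions of the curves. So these reductions are ordinary and geometrically not isogenous to each
other, and the canonical lifts for different types `b` are not isogenous. If `t` is divisible by large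
primes `p_0, …, p_(n+k)` of all the types, then for each of them at most `m` coordinates `x_i` are not near to
`s_i`, and one of the primes is good for the given point: no coordinate `x_i` is a singular modulus near to
`s_i` and in the exceptional set of the prime. The coordinates near to `s_i` are not isogenous to each
other and to the `u_l`.
-/

set_option autoImplicit false

namespace Pool.Agent.Results.MP_7e5527_ag.FixedCentres

open UpperHalfPlane H294ZP

/-- The singular moduli. -/
def singularModuli : Set ℂ := {x | ∃ τ : ℍ, IsCM τ ∧ jj τ = x}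

/-- `x` and `x'` are the `j`-invariants of isogenous elliptic curves. -/
def Isogenous (x x' : ℂ) : Prop :=
  ∃ (g : Matrix (Fin 2) (Fin 2) ℤ) (τ τ' : ℍ), 0 < g.det ∧
    (τ' : ℂ) * (g 1 0 * τ + g 1 1) = g 0 0 * τ + g 0 1 ∧ jj τ = x ∧ jj τ' = x'

/-- The points of `Y(1)^n` all of whose coordinates are singular moduli or isogenous to one of
`u_1, …, u_k`. -/
def Sigma (n : ℕ) {k : ℕ} (u : Fin k → ℂ) : Set (Fin n → ℂ) :=
  {x | ∀ i, x i ∈ singularModuli ∨ ∃ l, Isogenous (u l) (x i)}

/-- Each point of `Y` has at most `m` coordinates which are singular moduli or isogenous to one of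
`u_1, …, u_k`. In particular, if `m < n`, then `Y` has no point of `Sigma n u`. -/
def Few {n k : ℕ} (u : Fin k → ℂ) (m : ℕ) (Y : Set (Fin n → ℂ)) : Prop :=
  (∀ x ∈ Y, ∀ I : Finset (Fin n),
    (∀ i ∈ I, x i ∈ singularModuli ∨ ∃ l, Isogenous (u l) (x i)) → I.card ≤ m) ∧
  (m < n → Y ∩ Sigma n u = ∅)

/-- A family of subsets of `ℂ^n` of dimension `m` over the field `F`, with parameters `t ∈ ℕ`, `λ ∈ ℂ^q`,
which degenerates for `t = 0` to the union of the coordinate subspaces of dimension `m`: for each set
`J` of `m + 1` coordinates there is an equation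
`lead_J ∏_(i ∈ J) x_i ^ (expo_J i) + t rest_J (λ, x) = 0`, `0 ≠ lead_J ∈ F`, with a polynomial `rest_J`
over `F` of degree at most `expo_J i` in `x_i`. -/
structure Family (F : Subfield ℂ) (n q m : ℕ) where
  expo : Finset (Fin n) → Fin n → ℕ
  lead : Finset (Fin n) → F
  rest : Finset (Fin n) → MvPolynomial (Fin q ⊕ Fin n) F
  expo_eq_zero : ∀ J i, i ∉ J → expo J i = 0
  lead_ne_zero : ∀ J, lead J ≠ 0
  degree_le : ∀ J i, (rest J).degreeOf (Sum.inr i) ≤ expo J i

/-- The member of the family with the parameters `t, λ`. -/
def Family.member {F : Subfield ℂ} {n q m : ℕ} (X : Family F n q m) (t : ℕ) (lam : Fin q → ℂ) :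
    Set (Fin n → ℂ) :=
  {x | ∀ J : Finset (Fin n), J.card = m + 1 →
    (X.lead J : ℂ) * ∏ i, x i ^ X.expo J i +
      (t : ℂ) * MvPolynomial.aeval (Sum.elim lam x) (X.rest J) = 0}

/-- The translate `s + X`. -/
def translate {n : ℕ} (s : Fin n → ℂ) (X : Set (Fin n → ℂ)) : Set (Fin n → ℂ) :=
  {y | (fun i => y i - s i) ∈ X}

/-- The numbers `j (g τ)`, where `j (τ) = s` and `g` is an integral matrix of determinant `ℓ`: the
`j`-invariants of the quotients by subgroups of order `ℓ` of an elliptic curve with `j`-invariant `s`. -/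
def neighbours (ℓ : ℕ) (s : ℂ) : Set ℂ :=
  {y | ∃ (g : Matrix (Fin 2) (Fin 2) ℤ) (τ w : ℍ), g.det = ℓ ∧
    (w : ℂ) * (g 1 0 * τ + g 1 1) = g 0 0 * τ + g 0 1 ∧ jj τ = s ∧ jj w = y}

/-- The Galois condition for the centre: there are primes `ℓ_(a,i) ≡ 1 mod 4` (`a = 0, …, n`) with
`ℓ_(a,i) + 1` neighbours of each `s_k`, and automorphisms `σ_a` of `ℂ` which fix the `s_k` and the roots of unity
of order `ℓ_(a,i)`, such that `σ_b` fixes no `ℓ_(a,i)`-neighbour of `s_k` if `(b, k) = (a, i)`, and exactly two of
them otherwise. -/
def Separated {n : ℕ} (s : Fin n → ℂ) : Prop :=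
  ∃ (ℓ : Fin (n + 1) → Fin n → ℕ) (σ : Fin (n + 1) → ℂ ≃+* ℂ),
    (∀ a k, σ a (s k) = s k) ∧
    (∀ a i, (ℓ a i).Prime ∧ ℓ a i % 4 = 1 ∧ σ a (Complex.exp (2 * Real.pi * Complex.I / ℓ a i)) =
      Complex.exp (2 * Real.pi * Complex.I / ℓ a i)) ∧
    (∀ a i k, (neighbours (ℓ a i) (s k)).ncard = ℓ a i + 1) ∧
    (∀ a i, ∀ y ∈ neighbours (ℓ a i) (s i), σ a y ≠ y) ∧
    ∀ a i b k, (b, k) ≠ (a, i) → {y | y ∈ neighbours (ℓ a i) (s k) ∧ σ b y = y}.ncard = 2

/-- `N` has density zero. -/
def DensityZero (N : Set ℕ) : Prop :=
  ∀ ε : ℝ, 0 < ε → ∃ H₀ : ℕ, ∀ H : ℕ, H₀ ≤ H → ((N ∩ Set.Icc 0 H).ncard : ℝ) ≤ ε * H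

open Pool.Agent.H882 Pool.Agent.Y226

theorem main (n k : ℕ) (s : Fin n → ℂ) (u : Fin k → ℂ)
    (hs : ∀ i, IsAlgebraic ℚ (Fin.append s u i) ∧ Fin.append s u i ≠ 0 ∧ Fin.append s u i ≠ 1728)
    (hsep : Separated (Fin.append s u)) :
    ∃ (P : Fin (n + k + 1) → Set ℕ) (N : Set ℕ),
      (∀ a, (∀ p ∈ P a, p.Prime) ∧ ¬ Summable ((P a).indicator fun p : ℕ => (1 : ℝ) / p)) ∧
      DensityZero N ∧
      ∀ (F : Subfield ℂ) (m q : ℕ) (X : Family F n q m),
        (∃ B : ℕ, ∀ t : ℕ, (∀ a, ∃ p ∈ P a, B < p ∧ p ∣ t) →
          ∀ lam : Fin q → ℂ, (∀ i, IsIntegral ℤ (lam i)) →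
            Few u m (translate s (X.member t lam))) ∧
        ∃ T : ℕ, ∀ t : ℕ, T ≤ t → t ∉ N →
          ∀ lam : Fin q → ℂ, (∀ i, IsIntegral ℤ (lam i)) →
            Few u m (translate s (X.member t lam)) := by
  classical
  obtain ⟨ℓ, σ, hsep'⟩ := hsep
  obtain ⟨c, hc⟩ : ∃ c : Fin (n + k) → QA, ∀ i, (c i : ℂ) = Fin.append s u i :=
    ⟨fun i => ⟨Fin.append s u i, mem_QA.2 (hs i).1⟩, fun _ => rfl⟩
  have hcf : Fin.append s u = fun i => (c i : ℂ) := funext fun i => (hc i).symm
  rw [hcf] at hsep'
  obtain ⟨P, N, hP, hPd, hN, hNT, hmaster⟩ := fz_master (c := c) (fun i =>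
    ⟨fun h => (hs i).2.1 (by rw [← hc i, h]; rfl), fun h => (hs i).2.2 (by rw [← hc i, h]; rfl)⟩)
    (ℓ := ℓ) (σ := σ) hsep'
  refine ⟨P, N, fun a => ⟨hP a, (hPd a).not_summable⟩, hN, fun F m q X => ?_⟩
  have hmain : ∃ B : ℕ, ∀ t : ℕ, (∀ a, ∃ p ∈ P a, B < p ∧ p ∣ t) →
      ∀ lam : Fin q → ℂ, (∀ i, IsIntegral ℤ (lam i)) →
        Few u m (translate s (X.member t lam)) := ?_
  · refine ⟨hmain, ?_⟩
    obtain ⟨B, hB⟩ := hmain
    obtain ⟨T, hT⟩ := hNT B
    exact ⟨T, fun t ht htN lam hlam => hB t (hT t ht htN) lam hlam⟩
  obtain ⟨S, hS0, hSF, B₁, hB₁⟩ := fam_bad (m := m) X.expo X.lead X.rest X.expo_eq_zero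
    X.lead_ne_zero X.degree_le
  obtain ⟨B₂, hB₂⟩ := hmaster F S hS0 hSF
  refine ⟨B₁ + B₂, fun t ht lam hlam => ?_⟩
  have key : ∀ x ∈ translate s (X.member t lam), ∀ I : Finset (Fin n),
      (∀ i ∈ I, x i ∈ singularModuli ∨ ∃ l, Isogenous (u l) (x i)) → I.card ≤ m := by
    intro x hx I hI
    choose g hgP hgB hgt using ht
    obtain ⟨Z, hZ⟩ := exists_datum x u I hI
    have h := hB₂ g (fun a => ⟨hgP a, by have := hgB a; omega⟩) m (Fin.append x u) (fun a => ?_)
      _ Z hZ ∅ (by
        rw [algebraicIndependent_empty_type_iff]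
        exact (algebraMap F ℂ).injective)
    · rw [Finset.card_empty, Finset.card_compl, Fintype.card_fin] at h
      have h1 : I.card ≤ n := by
        have := Finset.card_le_univ I
        rwa [Fintype.card_fin] at this
      omega
    intro C _ _ _ Φ hpC hS
    have p1 := hP a (g a) (hgP a)
    obtain ⟨Bad, hBad1, hBad2⟩ := hB₁ (g a) p1 (by have := hgB a; omega) C Φ hpC hS t (hgt a) lam
      hlam (fun i => x i - s i) hx
    refine ⟨Bad.map (Fin.castAddEmb k), by rw [Finset.card_map]; exact hBad1, fun i => ?_⟩
    rw [hc i]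
    refine Fin.addCases (fun i hi => ?_) (fun l hl => ?_) i
    · rw [Fin.append_left, Fin.append_left, ← map_sub]
      refine hBad2 i fun h => hi ?_
      exact Finset.mem_map.2 ⟨i, h, rfl⟩
    · rw [Fin.append_right, Fin.append_right, sub_self, norm_zero]
      exact one_pos
  refine ⟨key, fun hmn => ?_⟩
  rw [Set.eq_empty_iff_forall_notMem]
  rintro x ⟨hx1, hx2⟩
  have h := key x hx1 Finset.univ fun i _ => hx2 i
  rw [Finset.card_univ, Fintype.card_fin] at h
  omega

/-- The theorem. -/
theorem result (n k : ℕ) :
    (∀ (N : ℕ) (c₀ : Fin (n + k) → ℤ), 0 < N → ∃ (M : ℕ) (c' : Fin (n + k) → ℤ), 0 < M ∧ N ∣ M ∧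
      (∀ i, (N : ℤ) ∣ c' i - c₀ i) ∧ ∀ c : Fin (n + k) → ℤ, (∀ i, (M : ℤ) ∣ c i - c' i) →
        (∀ i, c i ≠ 0 ∧ c i ≠ 1728) ∧ Separated fun i => (c i : ℂ)) ∧
    ∀ (s : Fin n → ℂ) (u : Fin k → ℂ),
      (∀ i, IsAlgebraic ℚ (Fin.append s u i) ∧ Fin.append s u i ≠ 0 ∧ Fin.append s u i ≠ 1728) →
      Separated (Fin.append s u) →
    ∃ (P : Fin (n + k + 1) → Set ℕ) (N : Set ℕ),
      (∀ a, (∀ p ∈ P a, p.Prime) ∧ ¬ Summable ((P a).indicator fun p : ℕ => (1 : ℝ) / p)) ∧
      DensityZero N ∧
      ∀ (F : Subfield ℂ) (m q : ℕ) (X : Family F n q m),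
        (∃ B : ℕ, ∀ t : ℕ, (∀ a, ∃ p ∈ P a, B < p ∧ p ∣ t) →
          ∀ lam : Fin q → ℂ, (∀ i, IsIntegral ℤ (lam i)) →
            Few u m (translate s (X.member t lam))) ∧
        ∃ T : ℕ, ∀ t : ℕ, T ≤ t → t ∉ N →
          ∀ lam : Fin q → ℂ, (∀ i, IsIntegral ℤ (lam i)) →
            Few u m (translate s (X.member t lam)) := by
  refine ⟨?_, fun s u hs hsep => main n k s u hs hsep⟩
  intro N c₀ hN
  obtain ⟨M, c, hM, hNM, hc, h⟩ := dense_sep (n + k) N hN c₀
  refine ⟨M, c, hM, hNM, hc, fun s hs => ?_⟩
  obtain ⟨h0, ℓ, σ, hsep⟩ := h s hs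
  exact ⟨h0, ℓ, σ, hsep⟩

end Pool.Agent.Results.MP_7e5527_ag.FixedCentres
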