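import Pool.Agent.H882.SigRes

/-!
# MP_7e5527_ag: for one hundred percent of the integral points `s` and natural numbers `t` the
subvarieties `s + t λ Y` of `Y(1)^n`, of any dimension `m < n`, have no point of `Σ(M, X_M, x)`

`Γ\X⁺ = Y(1)^n` (`G = GL_2^n`, `X⁺ = ℍ^n`, `Γ = SL_2(ℤ)^n`) is identified with `ℂ^n` by the elliptic
modular function `jj = j = E₄³ / Δ`.

**The sets `Σ`.** Let `(M, X_M)` be any Shimura datum, `x ∈ X_M` Hodge generic and `z_1, …, z_k` the
components of `x^ad` at the `ℚ`-simple factors of `M^ad` which are isomorphic to `PGL_2` (moved to the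
upper half plane). The adjoint Mumford-Tate group of a point `x'` of `ℍ^n` is `PGL_2^r`, where `r` is
the number of isogeny classes of its coordinates without complex multiplication. A homomorphism
`φ : M^ad → M^ad_{x'}` with `φ(x^ad) = x'^ad` is surjective, so it is given by `r` of the
factors of `M^ad`. Hence the image of `Σ(M, X_M, x)` in `ℂ^n` consists of points of the set `Sigma F`,
`F = {j (z_1), …, j (z_k)}`: each coordinate is a singular modulus or the `j`-invariant of an
elliptic curve which is isogenous to one with the invariant `j (z_l)` for some `l`. (It is equal to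
`Sigma F`, since the `z_l` have no complex multiplication and are pairwise not isogenous.)

**The subvarieties.** Let `K` be a number field and `σ : K → ℂ`. `Y ⊆ ℂ^n` is a subvariety over `K` of
dimension `m < n`, or any set, which is in general position at infinity (`InGeneralPosition`): for
each set `J` of `m + 1` coordinates there is an equation `G_J (y_j, j ∈ J) = 0` for `Y`, over `K`, which
contains the monomial `∏ y_j ^ d_j` in which all the exponents are maximal. (So no `m + 1`
coordinates become infinite at the same point of the closure of `Y` in `(P¹)^n`. This implies that the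
dimension of `Y` is at most `m`.) For `s ∈ ℤ^n` and `λ ∈ (𝓞 K)^n` let `s + λ Y` be the set of all `x`
with `x_i = s_i + λ_i y_i` for `y ∈ Y`.

**Theorem.** For each prime number `p` and each finite set `F` of complex numbers there is a set
`e_{p,F} ⊆ ℤ/p` with `|e_{p,F}| ≤ C (|F| + 1) p^(1/2 + ε)` (for each `ε > 0` with a `C = C(ε)`), and for
each `a ∈ ℤ/p` a set `Γ_{p,a}` of at most one singular modulus, such that the following holds for all `n`.
(A) For all `K`, `σ`, all `m` and all `Y` over `K` in general position at infinity of dimension at most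
`m` there is `B` such that for all primes `p > B`, all finite sets `F`, all `s ∈ ℤ^n`, all
`λ ∈ (p 𝓞 K)^n` and all points `x` of `X = s + λ Y` in `Sigma F`: there are at most `m` coordinates
with `s_i mod p ∉ e_{p,F}` and `x_i ∉ Γ_{p,s_i}`. So if `s_i mod p ∉ e_{p,F}` for all `i`, then at
least `n - m` coordinates `x_i` of `x` are elements of `Γ_{p,s_i}`: they are singular moduli which are
determined by `p` and `s_i mod p`.
(B) Let `A` be a countable set of complex numbers, for instance the set of all algebraic numbers.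
There is one set `N ⊆ ℤ^n × ℕ` of density zero such that for all `K`, `σ`, all `m < n`, all `Y` over
`K` in general position at infinity of dimension at most `m` and all finite subsets `F` of `A`: for
all `(s, t)` outside of `N` with finitely many exceptions, and for all `λ ∈ (𝓞 K)^n`, the set
`X = s + t λ Y` has no point of `Sigma F`.

So for all Shimura data `(M, X_M)` and all Hodge generic `x` the question Q1 has a positive answer for
`(M, X_M, x)` and `V = s + t λ Y`, with the empty union, for one hundred percent of the pairs `(s, t)`, and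
the exceptional set of density zero is the same for all `K`, `Y`, `(M, X_M)` and all `x` with
components in a countable set, e.g. all `x` defined over the algebraic numbers.

Earlier results on `V ∩ Σ = ∅` (`ImagesAvoidSigma`, `TranslatesAvoidSigma`, `FamiliesOverTheLine`,
`OneDegenerateValue`) are about subvarieties all of whose points have coordinates with bad
reduction at several places, and they are restricted to `(M, X_M, x)` with few factors `PGL_2`, or
with components integral over a given ring, or to almost all `x`. Here the centre `s` is an integral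
point and nothing is assumed about `(M, X_M, x)`.

**Idea of the proof.** Let `ℂ → ℂ_p` be a fixed embedding. If `|y_i| ≤ 1`, then `x_i` is in the residue
class `a` of `s_i`. By Kronecker's congruence the class contains a singular modulus `j (τ_a)`, where
`τ_a` is fixed by a matrix of determinant `p` and trace `A_a`. If `A_a ≠ 0`, then the class is
ordinary and its only singular modulus with `|x - a| ≤ |p|` is the canonical lift, `Γ_{p,a}`. The set
`e_{p,F}` consists of the classes with `A_a = 0` and of all the classes which contain a number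
isogenous to an element `u` of `F`. If two ordinary classes `a`, `b` contain numbers isogenous to `u`,
then by the library's theory of the canonical isogeny `τ_a` and `τ_b` are isogenous. So they have the
same CM field; there are at most `18` possible traces, and for each of them at most
`O(p^(1/2 + ε))` classes. For (B) one uses `n + 1` primes which divide `t` and the pigeonhole
principle.
-/

set_option autoImplicit false

namespace Pool.Agent.Results.MP_7e5527_ag.IntegralCentresAvoidSigma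

open UpperHalfPlane H294ZP NumberField

/-- The singular moduli. -/
def singularModuli : Set ℂ := {x | ∃ τ : ℍ, IsCM τ ∧ jj τ = x}

/-- `x` and `x'` are the `j`-invariants of isogenous elliptic curves. -/
def Isogenous (x x' : ℂ) : Prop :=
  ∃ (g : Matrix (Fin 2) (Fin 2) ℤ) (τ τ' : ℍ), 0 < g.det ∧
    (τ' : ℂ) * (g 1 0 * τ + g 1 1) = g 0 0 * τ + g 0 1 ∧ jj τ = x ∧ jj τ' = x'

/-- The points of `Y(1)^n` all of whose coordinates are singular moduli or isogenous to an element
of `F`. -/
def Sigma (n : ℕ) (F : Finset ℂ) : Set (Fin n → ℂ) :=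
  {x | ∀ i, x i ∈ singularModuli ∨ ∃ u ∈ F, Isogenous u (x i)}

/-- An equation over `K` for `Y` in the coordinates in `J`: `d` is the vector of the largest
exponents, and it is one of the exponents of the equation. -/
structure Equation {K : Type} [Field K] [NumberField K] (σ : K →+* ℂ) {n : ℕ}
    (Y : Set (Fin n → ℂ)) (J : Finset (Fin n)) where
  G : MvPolynomial (Fin n) K
  d : Fin n →₀ ℕ
  le : ∀ u ∈ G.support, u ≤ d
  supp : d.support ⊆ J
  top : G.coeff d ≠ 0
  eq_zero : ∀ y ∈ Y, MvPolynomial.eval₂ σ y G = 0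

/-- `Y` is in general position at infinity, of dimension at most `m`. -/
def InGeneralPosition {K : Type} [Field K] [NumberField K] (σ : K →+* ℂ) {n : ℕ} (m : ℕ)
    (Y : Set (Fin n → ℂ)) : Prop :=
  ∀ J : Finset (Fin n), J.card = m + 1 → Nonempty (Equation σ Y J)

/-- `X = s + λ Y`. -/
def image {K : Type} [Field K] [NumberField K] (σ : K →+* ℂ) {n : ℕ} (s : Fin n → ℤ)
    (lam : Fin n → 𝓞 K) (Y : Set (Fin n → ℂ)) : Set (Fin n → ℂ) :=
  {x | ∃ y ∈ Y, ∀ i, x i = (s i : ℂ) + σ (lam i) * y i}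

/-- `N` has density zero in `ℤ^n × ℕ`. -/
def DensityZero {n : ℕ} (N : Set ((Fin n → ℤ) × ℕ)) : Prop :=
  ∀ ε : ℝ, 0 < ε → ∃ H₀ : ℕ, ∀ H : ℕ, H₀ ≤ H →
    ({q : (Fin n → ℤ) × ℕ | q ∈ N ∧ (∀ i, |q.1 i| ≤ (H : ℤ)) ∧ q.2 ≤ H}.ncard : ℝ) ≤
      ε * (H : ℝ) ^ (n + 1)

open Pool.Agent.H882

theorem good_primes {K : Type} [Field K] [NumberField K] (σ : K →+* ℂ) {n : ℕ} (m : ℕ)
    (Y : Set (Fin n → ℂ)) (hY : InGeneralPosition σ m Y) :
    ∃ B : ℕ, ∀ p : ℕ, p.Prime → B < p → ∀ J : Finset (Fin n), J.card = m + 1 →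
      ∃ E : Equation σ Y J, (∀ u, PI p (E.G.coeff u)) ∧ PI p (E.G.coeff E.d)⁻¹ := by
  classical
  have hc : ∀ (J : Finset (Fin n)), ∃ B : ℕ, ∀ hJ : J.card = m + 1, ∀ p : ℕ, p.Prime → B < p →
      (∀ u, PI p ((hY J hJ).some.G.coeff u)) ∧
        PI p ((hY J hJ).some.G.coeff (hY J hJ).some.d)⁻¹ := by
    intro J
    by_cases hJ : J.card = m + 1
    · choose B₁ hB₁ using fun u => PI_almost ((hY J hJ).some.G.coeff u)
      obtain ⟨B₂, hB₂⟩ := PI_almost ((hY J hJ).some.G.coeff (hY J hJ).some.d)⁻¹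
      refine ⟨(∑ u ∈ (hY J hJ).some.G.support, B₁ u) + B₂, fun _ p hp hlt => ⟨fun u => ?_, ?_⟩⟩
      · by_cases hu : u ∈ (hY J hJ).some.G.support
        · have h1 : B₁ u ≤ ∑ u ∈ (hY J hJ).some.G.support, B₁ u :=
            Finset.single_le_sum (f := B₁) (fun _ _ => Nat.zero_le _) hu
          exact hB₁ u p hp (by omega)
        · rw [MvPolynomial.notMem_support_iff.1 hu]
          exact PI_zero hp
      · exact hB₂ p hp (by omega)
    · exact ⟨0, fun h => absurd h hJ⟩
  choose B hB using hc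
  refine ⟨∑ J, B J, fun p hp hlt J hJ => ?_⟩
  have h1 : B J ≤ ∑ J, B J :=
    Finset.single_le_sum (f := B) (fun _ _ => Nat.zero_le _) (Finset.mem_univ J)
  exact ⟨(hY J hJ).some, hB J hJ p hp (by omega)⟩

/-- The theorem. -/
theorem result : ∃ (e : ∀ p : ℕ, Finset ℂ → Finset (ZMod p)) (Γ : ∀ p : ℕ, ZMod p → Set ℂ),
    (∀ ε : ℝ, 0 < ε → ∃ C : ℝ, ∀ p : ℕ, p.Prime → ∀ F : Finset ℂ,
      ((e p F).card : ℝ) ≤ C * (F.card + 1) * (p : ℝ) ^ (1 / 2 + ε)) ∧
    (∀ p a, (Γ p a).Subsingleton ∧ Γ p a ⊆ singularModuli) ∧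
    ∀ n : ℕ,
      -- (A)
      (∀ (K : Type) [Field K] [NumberField K] (σ : K →+* ℂ) (m : ℕ) (Y : Set (Fin n → ℂ)),
        InGeneralPosition σ m Y → ∃ B : ℕ, ∀ p : ℕ, p.Prime → B < p → ∀ (F : Finset ℂ)
          (s : Fin n → ℤ) (lam : Fin n → 𝓞 K), (∀ i, (p : 𝓞 K) ∣ lam i) →
          ∀ x ∈ image σ s lam Y ∩ Sigma n F, ∀ I : Finset (Fin n),
            (∀ i ∈ I, (s i : ZMod p) ∉ e p F ∧ x i ∉ Γ p (s i)) → I.card ≤ m) ∧
      -- (B)
      ∀ A : Set ℂ, A.Countable → ∃ N : Set ((Fin n → ℤ) × ℕ), DensityZero N ∧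
        ∀ (K : Type) [Field K] [NumberField K] (σ : K →+* ℂ) (m : ℕ) (Y : Set (Fin n → ℂ)),
          m < n → InGeneralPosition σ m Y → ∀ F : Finset ℂ, (F : Set ℂ) ⊆ A →
          ∃ T : ℕ, ∀ (s : Fin n → ℤ) (t : ℕ), 0 < t → (T ≤ t ∨ ∃ i, (T : ℤ) ≤ |s i|) →
            (s, t) ∉ N → ∀ lam : Fin n → 𝓞 K,
              image σ s (fun i => (t : 𝓞 K) * lam i) Y ∩ Sigma n F = ∅ := by
  classical
  obtain ⟨e, Γ, he, hemono, hΓ, hΓ2, hglob⟩ := sigma_all
  have hA : ∀ n : ℕ, ∀ (K : Type) [Field K] [NumberField K] (σ : K →+* ℂ) (m : ℕ)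
      (Y : Set (Fin n → ℂ)), InGeneralPosition σ m Y → ∃ B : ℕ, ∀ p : ℕ, p.Prime → B < p →
        ∀ (F : Finset ℂ) (s : Fin n → ℤ) (lam : Fin n → 𝓞 K), (∀ i, (p : 𝓞 K) ∣ lam i) →
          ∀ x ∈ image σ s lam Y ∩ Sigma n F, ∀ I : Finset (Fin n),
            (∀ i ∈ I, (s i : ZMod p) ∉ e p F ∧ x i ∉ Γ p (s i)) → I.card ≤ m := by
    intro n K _ _ σ m Y hY
    obtain ⟨B, hB⟩ := good_primes σ m Y hY
    refine ⟨B + 3, fun p hp hBp F s lam hlam x hx I hI => ?_⟩
    obtain ⟨⟨y, hy, hxy⟩, hxS⟩ := hx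
    refine hglob p hp (by omega) n K σ m y (fun J hJ => ?_) s lam hlam x hxy F I fun i hi =>
      ⟨(hI i hi).1, (hI i hi).2, hxS i⟩
    obtain ⟨G, hG1, hG2⟩ := hB p hp (by omega) J hJ
    exact ⟨G.G, G.d, G.le, G.supp, G.top, hG1, hG2, G.eq_zero y hy⟩
  refine ⟨e, Γ, he, hΓ, fun n => ⟨fun K _ _ => hA n K, fun A hAc => ?_⟩⟩
  obtain ⟨f, hf⟩ := hAc
  have hfin : ∀ B : ℕ, {u ∈ A | ∃ h : u ∈ A, f ⟨u, h⟩ ≤ B}.Finite := by
    intro B
    have h1 : {u ∈ A | ∃ h : u ∈ A, f ⟨u, h⟩ ≤ B} ⊆
        (fun u : A => (u : ℂ)) '' {u : A | f u ≤ B} := by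
      rintro u ⟨hu, _, hB⟩
      exact ⟨⟨u, hu⟩, hB, rfl⟩
    refine Set.Finite.subset (Set.Finite.image _ ?_) h1
    exact Set.Finite.preimage hf.injOn (Set.finite_Iic B)
  set FB : ℕ → Finset ℂ := fun B => (hfin B).toFinset with hFB
  have hFBmono : ∀ B B', B ≤ B' → FB B ⊆ FB B' := by
    intro B B' h u hu
    rw [hFB, Set.Finite.mem_toFinset] at hu ⊢
    obtain ⟨h1, h2, h3⟩ := hu
    exact ⟨h1, h2, h3.trans h⟩
  have hbound : ∀ k : ℕ, ∀ ε : ℝ, 0 < ε → ∃ C : ℝ, ∀ p : ℕ, p.Prime →
      ({s : Fin n → ZMod p | ∃ i, s i ∈ e p (FB k)}.ncard : ℝ) ≤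
        C * (p : ℝ) ^ ((n : ℝ) - 1 / 2 + ε) := by
    intro k ε hε
    obtain ⟨C, hC⟩ := he ε hε
    refine ⟨n * (C * ((FB k).card + 1)), fun p hp => ?_⟩
    have : NeZero p := ⟨hp.ne_zero⟩
    have hp0 : (0 : ℝ) < p := by exact_mod_cast hp.pos
    have h1 : ({s : Fin n → ZMod p | ∃ i, s i ∈ e p (FB k)}.ncard : ℝ) ≤
        n * (e p (FB k)).card * (p : ℝ) ^ (n - 1) := by
      exact_mod_cast card_coord (n := n) (e p (FB k))
    rcases Nat.eq_zero_or_pos n with rfl | hn
    · simp
    · calc _ ≤ n * (e p (FB k)).card * (p : ℝ) ^ (n - 1) := h1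
        _ ≤ n * (C * ((FB k).card + 1) * (p : ℝ) ^ (1 / 2 + ε)) * (p : ℝ) ^ (n - 1) :=
            mul_le_mul_of_nonneg_right (mul_le_mul_of_nonneg_left (hC p hp (FB k))
              (Nat.cast_nonneg _)) (by positivity)
        _ = n * (C * ((FB k).card + 1)) * ((p : ℝ) ^ (1 / 2 + ε) * (p : ℝ) ^ (n - 1)) := by ring
        _ = n * (C * ((FB k).card + 1)) * (p : ℝ) ^ ((n : ℝ) - 1 / 2 + ε) := by
            congr 1
            rw [← Real.rpow_natCast, ← Real.rpow_add hp0]
            congr 1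
            rw [Nat.cast_sub hn]
            push_cast
            ring
  obtain ⟨N, hN, hNB⟩ := null_fam (fun B p => {s : Fin n → ZMod p | ∃ i, s i ∈ e p (FB B)})
    (fun B B' p h s hs => by
      obtain ⟨i, hi⟩ := hs
      exact ⟨i, hemono p _ _ (hFBmono B B' h) hi⟩) Γ
    (fun k => small_E _ (hbound k)) (fun p _ _ a => (hΓ p a).1) (fun p _ _ a b z => hΓ2 p z a b)
  refine ⟨N, hN, fun K _ _ σ m Y hmn hY F hFA => ?_⟩
  obtain ⟨B, hB⟩ := hA n K σ m Y hY
  obtain ⟨B₁, hB₁⟩ : ∃ B₁ : ℕ, F ⊆ FB B₁ := by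
    have h1 : ∀ u : F, ∃ k : ℕ, (u : ℂ) ∈ FB k := by
      intro u
      have hu := hFA u.2
      refine ⟨f ⟨u, hu⟩, ?_⟩
      rw [hFB, Set.Finite.mem_toFinset]
      exact ⟨hu, hu, le_rfl⟩
    choose k hk using h1
    refine ⟨∑ u : F, k u, fun u hu => ?_⟩
    exact hFBmono _ _ (Finset.single_le_sum (f := k) (fun _ _ => Nat.zero_le _)
      (Finset.mem_univ ⟨u, hu⟩)) (hk ⟨u, hu⟩)
  obtain ⟨T, hT⟩ := hNB (max B B₁)
  refine ⟨T, fun s t ht hTt hst lam => ?_⟩
  obtain ⟨g, hginj, hg, hgΓ⟩ := hT s t ht hTt hst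
  rw [Set.eq_empty_iff_forall_notMem]
  intro x hx
  have hex : ∀ l : Fin (n + 1), ∃ i : Fin n, x i ∈ Γ (g l) (s i : ZMod (g l)) := by
    intro l
    by_contra hno
    push Not at hno
    obtain ⟨h1, h2, h3, h4, h5⟩ := hg l
    have h6 := hB (g l) h1 ((le_max_left _ _).trans_lt h3) F s (fun i => (t : 𝓞 K) * lam i)
      (fun i => Dvd.dvd.mul_right (by exact_mod_cast Nat.cast_dvd_cast (α := 𝓞 K) h4) _) x hx
      Finset.univ fun i _ => ⟨fun hi => h5 ⟨i, hemono _ _ _
        (hB₁.trans (hFBmono _ _ (le_max_right B B₁))) hi⟩, hno i⟩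
    rw [Finset.card_univ, Fintype.card_fin] at h6
    omega
  choose c hc using hex
  obtain ⟨l, l', hll, hcl⟩ := Fintype.exists_ne_map_eq_of_card_lt c (by simp)
  have h1 := hc l
  have h2 := hc l'
  rw [← hcl] at h2
  exact hgΓ l l' hll (c l) (x (c l)) h1 h2

end Pool.Agent.Results.MP_7e5527_ag.IntegralCentresAvoidSigma
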